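import Pool.Agent.P.MP_5d9799_lc.Defs

namespace Pool.Agent.P.MP_5d9799_lc

open Polynomial Finset

section general

variable {F : Type} [Field F]

/-- power sums -/
noncomputable def PS (A : Finset ℕ) (α : F) (t : ℕ) : F := ∑ a ∈ A, α ^ (a * t)

/-- ladder checker -/
def ok (z nz : ℕ → Bool) : List ℕ → List (ℕ × ℕ) → Bool
  | _, [] => true
  | rows, p :: rest => rows.all (fun r => z (r + p.2)) && nz (p.1 + p.2) && ok z nz (p.1 :: rows) rest

noncomputable def vec (A : Finset ℕ) (α : F) (r : ℕ) : A → F := fun a => α ^ (a.1 * r)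

noncomputable def fnl (A : Finset ℕ) (α : F) (j : ℕ) : (A → F) →ₗ[F] F where
  toFun x := ∑ a : A, x a * α ^ (a.1 * j)
  map_add' x y := by simp [add_mul, Finset.sum_add_distrib]
  map_smul' c x := by simp [Finset.mul_sum, mul_assoc]

lemma fnl_vec (A : Finset ℕ) (α : F) (r j : ℕ) : fnl A α j (vec A α r) = PS A α (r + j) := by
  simp only [fnl, vec, PS, LinearMap.coe_mk, AddHom.coe_mk]
  rw [← Finset.sum_coe_sort A]
  refine Finset.sum_congr rfl fun a _ => ?_
  rw [← pow_add, mul_add]

lemma ladder_aux (A : Finset ℕ) (α : F) (z nz : ℕ → Bool)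
    (hz : ∀ t, z t = true → PS A α t = 0) (hn : ∀ t, nz t = true → PS A α t ≠ 0) :
    ∀ (lad : List (ℕ × ℕ)) (rows : List ℕ), ok z nz rows lad = true →
      rows.length ≤ Module.finrank F (Submodule.span F {x | ∃ r ∈ rows, x = vec A α r}) →
      rows.length + lad.length ≤ A.card := by
  intro lad
  induction lad with
  | nil =>
    intro rows _ h
    have := Submodule.finrank_le (Submodule.span F {x | ∃ r ∈ rows, x = vec A α r})
    simp at this ⊢
    omega
  | cons p rest ih =>
    intro rows hok h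
    simp only [ok, Bool.and_eq_true, List.all_eq_true] at hok
    obtain ⟨⟨h1, h2⟩, h3⟩ := hok
    have hlt : Submodule.span F {x | ∃ r ∈ rows, x = vec A α r} <
        Submodule.span F {x | ∃ r ∈ p.1 :: rows, x = vec A α r} := by
      refine lt_of_le_of_ne (Submodule.span_mono ?_) ?_
      · rintro x ⟨r, hr, rfl⟩
        exact ⟨r, List.mem_cons_of_mem _ hr, rfl⟩
      · intro heq
        have hmem : vec A α p.1 ∈ Submodule.span F {x | ∃ r ∈ rows, x = vec A α r} := by
          rw [heq]
          exact Submodule.subset_span ⟨p.1, List.mem_cons_self, rfl⟩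
        have hker : Submodule.span F {x | ∃ r ∈ rows, x = vec A α r} ≤
            LinearMap.ker (fnl A α p.2) := by
          rw [Submodule.span_le]
          rintro x ⟨r, hr, rfl⟩
          simp only [SetLike.mem_coe, LinearMap.mem_ker, fnl_vec]
          exact hz _ (h1 r hr)
        have := hker hmem
        rw [LinearMap.mem_ker, fnl_vec] at this
        exact hn _ h2 this
    have hfr := Submodule.finrank_lt_finrank_of_lt hlt
    have := ih (p.1 :: rows) h3 (by simp only [List.length_cons]; omega)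
    simp only [List.length_cons] at this ⊢
    omega

lemma ladder (A : Finset ℕ) (α : F) (z nz : ℕ → Bool)
    (hz : ∀ t, z t = true → PS A α t = 0) (hn : ∀ t, nz t = true → PS A α t ≠ 0)
    (lad : List (ℕ × ℕ)) (h : ok z nz [] lad = true) : lad.length ≤ A.card := by
  simpa using ladder_aux A α z nz hz hn lad [] h (by simp)

/-- BCH bound with step `s`. -/
lemma bch (A : Finset ℕ) (α : F) (n s t0 L : ℕ) (hα : IsPrimitiveRoot α n) (hn : 0 < n)
    (hs : Nat.Coprime s n) (hA : ∀ a ∈ A, a < n) (hne : A.Nonempty)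
    (hz : ∀ t < L, PS A α (t0 + s * t) = 0) : L < A.card := by
  by_contra hcon
  rw [not_lt] at hcon
  have hβ : IsPrimitiveRoot (α ^ s) n := hα.pow_of_coprime s hs
  set e := A.equivFin.symm with he
  have hinj : Function.Injective fun k : Fin A.card => (α ^ s) ^ (e k).1 := by
    intro k l hkl
    have := hβ.pow_inj (hA _ (e k).2) (hA _ (e l).2) hkl
    exact e.injective (Subtype.ext this)
  have key := Matrix.eq_zero_of_forall_pow_sum_mul_pow_eq_zero
    (v := fun k : Fin A.card => α ^ ((e k).1 * t0)) hinj (by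
      intro i
      have h1 := hz i (lt_of_lt_of_le i.2 hcon)
      rw [PS, ← Finset.sum_coe_sort A, ← e.sum_comp] at h1
      rw [← h1]
      refine Finset.sum_congr rfl fun k _ => ?_
      rw [← pow_mul, ← pow_mul, ← pow_add]
      congr 1
      ring)
  have hpos : 0 < A.card := hne.card_pos
  have := congrFun key ⟨0, hpos⟩
  exact pow_ne_zero _ (hα.ne_zero hn.ne') this

lemma PS_mod (A : Finset ℕ) (α : F) (n t : ℕ) (hα : α ^ n = 1) :
    PS A α (t % n) = PS A α t := by
  unfold PS
  refine Finset.sum_congr rfl fun a _ => ?_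
  conv_rhs => rw [← Nat.mod_add_div t n, mul_add, pow_add, mul_left_comm, pow_mul α n, hα,
    one_pow, mul_one]

lemma PS_two [CharP F 2] (A : Finset ℕ) (α : F) (t k : ℕ) :
    PS A α (t * 2 ^ k) = PS A α t ^ 2 ^ k := by
  unfold PS
  rw [sum_pow_char_pow]
  refine Finset.sum_congr rfl fun a _ => ?_
  rw [← pow_mul, mul_assoc]

lemma eval_map_eq [Algebra (ZMod 2) F] (c : (ZMod 2)[X]) (α : F) (t : ℕ) :
    eval (α ^ t) (c.map (algebraMap (ZMod 2) F)) = PS c.support α t := by
  rw [eval_map, eval₂_eq_sum, Polynomial.sum, PS]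
  refine Finset.sum_congr rfl fun a ha => ?_
  have h1 : c.coeff a = 1 := by
    have : c.coeff a ≠ 0 := mem_support_iff.mp ha
    revert this
    generalize c.coeff a = y
    revert y
    decide
  rw [h1, map_one, one_mul, ← pow_mul, mul_comm]

end general

/-- membership of `t mod n` in the coset of some member of a list -/
def inCos (m : ℕ) (l : List ℕ) (t : ℕ) : Bool :=
  l.any fun a => (List.range m).any fun k => a * 2 ^ k % (2 ^ m - 1) == t % (2 ^ m - 1)

lemma inCos_zero {F : Type} [Field F] [CharP F 2] (A : Finset ℕ) (α : F) (m : ℕ)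
    (hα : α ^ (2 ^ m - 1) = 1) (l : List ℕ) (hl : ∀ a ∈ l, PS A α a = 0) (t : ℕ)
    (h : inCos m l t = true) : PS A α t = 0 := by
  simp only [inCos, List.any_eq_true, beq_iff_eq] at h
  obtain ⟨a, ha, k, -, hk⟩ := h
  rw [← PS_mod A α _ t hα, ← hk, PS_mod A α _ _ hα, PS_two, hl a ha]
  exact zero_pow (by positivity)

lemma inCos_ne {F : Type} [Field F] [CharP F 2] (A : Finset ℕ) (α : F) (m : ℕ)
    (hα : α ^ (2 ^ m - 1) = 1) (l : List ℕ) (hl : ∀ a ∈ l, PS A α a ≠ 0) (t : ℕ)
    (h : inCos m l t = true) : PS A α t ≠ 0 := by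
  simp only [inCos, List.any_eq_true, beq_iff_eq] at h
  obtain ⟨a, ha, k, -, hk⟩ := h
  rw [← PS_mod A α _ t hα, ← hk, PS_mod A α _ _ hα, PS_two]
  exact pow_ne_zero _ (hl a ha)

/-- computable form of `u` for `h ≤ 2` -/
def u' (m h j : ℕ) : ℕ :=
  if j = 1 then (v m 1 + h + 1) % 2
  else if j % 2 = 1 ∧ j ≤ 2 ^ h - 1 then (1 + v m j) % 2 else v m j

lemma u_eq (m h j : ℕ) (hh : h ≤ 2) : u m h j = u' m h j := by
  unfold u u'
  by_cases h1 : j = 1
  · simp [h1]
  · rw [if_neg h1, if_neg h1]
    simp only [Nat.odd_iff]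
    split_ifs with h2
    · have : j = 2 ^ h - 1 := by
        obtain ⟨h3, h4⟩ := h2
        interval_cases h <;> simp at h4 ⊢ <;> omega
      rw [eps, if_pos this]
    · rfl

def lead (m t : ℕ) : ℕ := ((List.range m).map fun k => t * 2 ^ k % (2 ^ m - 1)).foldr min t

/-- sufficient test for membership in `D m h i` -/
def crit (m h i t : ℕ) : Bool :=
  decide (lead m t < 2 ^ m - 1) && decide (∀ k ∈ coset m (lead m t), lead m t ≤ k) &&
    decide (t ∈ coset m (lead m t)) && decide (u' m h (lead m t) = i)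

lemma crit_mem (m h i t : ℕ) (hh : h ≤ 2) (hc : crit m h i t = true) : t ∈ D m h i := by
  simp only [crit, Bool.and_eq_true, decide_eq_true_eq] at hc
  obtain ⟨⟨⟨h1, h2⟩, h3⟩, h4⟩ := hc
  simp only [D, leaders, Finset.mem_biUnion, Finset.mem_filter, Finset.mem_range]
  exact ⟨lead m t, ⟨⟨h1, h2⟩, by rw [u_eq m h _ hh, h4]⟩, h3⟩

end Pool.Agent.P.MP_5d9799_lc
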