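import Mathlib

/-!
A checker for polynomial consequences in characteristic two, run by the kernel.

A monomial is a natural number (variables are primes, evaluated by a multiplicative map `φ`),
a polynomial is a list of monomials.  A step lists cofactors for earlier polynomials and a
claimed new polynomial `r`; the sum of the products must be `d * r` (with `d` a product of two
variables known to be nonzero) or the square of `r`.
-/

namespace Pool.Agent.P.MP_5d9799_lc

noncomputable def force (n : ℕ) (k : ℕ → Bool) : Bool :=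
  Nat.rec false (fun m _ => k m) (Nat.add n 1)

lemma force_eq (n : ℕ) (k : ℕ → Bool) : force n k = k n := by
  cases n <;> rfl

noncomputable def mrg (up : Bool) (f : ℕ) :
    List ℕ → List ℕ → List ℕ → (List ℕ → Bool) → Bool :=
  Nat.rec (fun _ _ _ _ => false)
    (fun _ ih a b acc k =>
      List.rec (List.rec (k acc) (fun y b' _ => ih [] b' (y :: acc) k) b)
        (fun x a' _ => List.rec (ih a' [] (x :: acc) k)
          (fun y b' _ => Bool.rec
            (Bool.rec (ih (x :: a') b' (y :: acc) k) (ih a' (y :: b') (x :: acc) k)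
              (Bool.rec (Nat.ble y x) (Nat.ble x y) up))
            (ih a' b' acc k) (Nat.beq x y)) b) a) f

noncomputable def sc (t : ℕ) (k : List ℕ → Bool) (l : List ℕ) : List ℕ → Bool :=
  List.rec k (fun x _ ih acc => force (Nat.mul t x) (fun y => ih (y :: acc))) l

noncomputable def lv (q : List ℕ) (k : List (List ℕ) → Bool) (g : List ℕ) :
    List (List ℕ) → Bool :=
  List.rec k (fun t _ ih L => Bool.rec (sc t (fun r => ih (r :: L)) q []) (ih L) (Nat.beq t 0)) g

noncomputable def get (env : List (List ℕ)) : ℕ → (List ℕ → Bool) → Bool :=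
  List.rec (fun _ _ => false)
    (fun g _ ih n k => Nat.rec (k g) (fun m _ => ih m k) n) env

noncomputable def lvs (env : List (List ℕ)) (k : List (List ℕ) → Bool)
    (c : List (List ℕ × ℕ)) : List (List ℕ) → Bool :=
  List.rec k (fun p _ ih L => get env p.2 (fun g => lv p.1 ih g L)) c

noncomputable def rnd (up : Bool) (k : List (List ℕ) → Bool) (f : ℕ) :
    List (List ℕ) → List (List ℕ) → Bool :=
  Nat.rec (fun _ _ => false)
    (fun _ ih L acc =>
      List.rec (k acc)
        (fun a L' _ => List.rec (mrg up 100000000 a [] [] (fun r => k (r :: acc)))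
          (fun b L'' _ => mrg up 100000000 a b [] (fun r => ih L'' (r :: acc))) L') L) f

noncomputable def allz (f : ℕ) : Bool → List (List ℕ) → Bool :=
  Nat.rec (fun _ _ => false)
    (fun _ ih up L =>
      List.rec true
        (fun a L' _ => List.rec (List.rec true (fun _ _ _ => false) a)
          (fun b L'' _ => rnd up (ih (Bool.rec true false up)) 100000000 (a :: b :: L'') []) L')
        L) f

noncomputable def sqs (k : List (List ℕ) → Bool) (r : List ℕ) : List (List ℕ) → Bool :=
  List.rec k (fun x _ ih L => force (Nat.mul x x) (fun y => ih ([y] :: L))) r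

/-- A step: cofactors with indices, two exponents, a root flag, the claimed polynomial. -/
abbrev Step : Type := List (List ℕ × ℕ) × ℕ × ℕ × Bool × List ℕ

noncomputable def okStep (pa pb : ℕ) (env : List (List ℕ)) (s : Step) : Bool :=
  lvs env (fun L => Bool.rec
      (sc (Nat.mul (Nat.pow pa s.2.1) (Nat.pow pb s.2.2.1))
        (fun r => allz 64 false (r :: L)) s.2.2.2.2 [])
      (sqs (allz 64 false) s.2.2.2.2 L) s.2.2.2.1) s.1 []

noncomputable def okSteps (pa pb : ℕ) (ss : List Step) : List (List ℕ) → Bool :=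
  List.rec (fun _ => true)
    (fun s _ ih env => Bool.rec false (ih (s.2.2.2.2 :: env)) (okStep pa pb env s)) ss

/-- The environment after a list of steps. -/
def outEnv (ss : List Step) (env : List (List ℕ)) : List (List ℕ) :=
  (ss.map (fun s => s.2.2.2.2)).reverse ++ env

variable {F : Type} [Field F] [CharP F 2] (φ : ℕ →*₀ F)

def ev (l : List ℕ) : F := (l.map φ).sum

def evs (L : List (List ℕ)) : F := (L.map (ev φ)).sum

omit [CharP F 2] in
@[simp] lemma ev_nil : ev φ [] = 0 := rfl
omit [CharP F 2] in
@[simp] lemma ev_cons (x : ℕ) (l : List ℕ) : ev φ (x :: l) = φ x + ev φ l := by simp [ev]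
omit [CharP F 2] in
@[simp] lemma evs_nil : evs φ [] = 0 := rfl
omit [CharP F 2] in
@[simp] lemma evs_cons (x : List ℕ) (l : List (List ℕ)) :
    evs φ (x :: l) = ev φ x + evs φ l := by simp [evs]

lemma mrg_sound (up : Bool) (f : ℕ) (a b acc : List ℕ) (k : List ℕ → Bool)
    (h : mrg up f a b acc k = true) :
    ∃ r, ev φ r = ev φ a + ev φ b + ev φ acc ∧ k r = true := by
  induction f generalizing a b acc with
  | zero => exact absurd h (by simp [mrg])
  | succ f ih =>
    rcases a with _ | ⟨x, a⟩ <;> rcases b with _ | ⟨y, b⟩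
    · exact ⟨acc, by simp, h⟩
    · obtain ⟨r, h1, h2⟩ := ih [] b (y :: acc) h
      exact ⟨r, by rw [h1]; simp only [ev_nil, ev_cons]; ring, h2⟩
    · obtain ⟨r, h1, h2⟩ := ih a [] (x :: acc) h
      exact ⟨r, by rw [h1]; simp only [ev_nil, ev_cons]; ring, h2⟩
    · have e : mrg up (f + 1) (x :: a) (y :: b) acc k = Bool.rec
            (Bool.rec (mrg up f (x :: a) b (y :: acc) k) (mrg up f a (y :: b) (x :: acc) k)
              (Bool.rec (Nat.ble y x) (Nat.ble x y) up))
            (mrg up f a b acc k) (Nat.beq x y) := rfl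
      rw [e] at h
      cases hb : Nat.beq x y
      · rw [hb] at h
        cases hc : (Bool.rec (Nat.ble y x) (Nat.ble x y) up : Bool)
        · rw [hc] at h
          obtain ⟨r, h1, h2⟩ := ih _ _ _ h
          exact ⟨r, by rw [h1]; simp only [ev_cons]; ring, h2⟩
        · rw [hc] at h
          obtain ⟨r, h1, h2⟩ := ih _ _ _ h
          exact ⟨r, by rw [h1]; simp only [ev_cons]; ring, h2⟩
      · rw [hb] at h
        obtain ⟨r, h1, h2⟩ := ih _ _ _ h
        have hxy : x = y := Nat.eq_of_beq_eq_true hb
        subst hxy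
        refine ⟨r, ?_, h2⟩
        rw [h1]; simp only [ev_cons]
        have := CharTwo.add_self_eq_zero (φ x)
        linear_combination -this

omit [CharP F 2] in
lemma sc_sound (t : ℕ) (k : List ℕ → Bool) (l acc : List ℕ) (h : sc t k l acc = true) :
    ∃ r, ev φ r = φ t * ev φ l + ev φ acc ∧ k r = true := by
  induction l generalizing acc with
  | nil => exact ⟨acc, by simp, h⟩
  | cons x l ih =>
    have e : sc t k (x :: l) acc = force (Nat.mul t x) (fun y => sc t k l (y :: acc)) := rfl
    rw [e, force_eq] at h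
    obtain ⟨r, h1, h2⟩ := ih _ h
    refine ⟨r, ?_, h2⟩
    rw [h1]; simp only [ev_cons, Nat.mul_eq, map_mul]; ring

omit [CharP F 2] in
lemma lv_sound (q : List ℕ) (k : List (List ℕ) → Bool) (g : List ℕ) (L : List (List ℕ))
    (h : lv q k g L = true) :
    ∃ R, evs φ R = ev φ g * ev φ q + evs φ L ∧ k R = true := by
  induction g generalizing L with
  | nil => exact ⟨L, by simp, h⟩
  | cons t g ih =>
    have e : lv q k (t :: g) L =
      Bool.rec (sc t (fun r => lv q k g (r :: L)) q []) (lv q k g L) (Nat.beq t 0) := rfl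
    rw [e] at h
    cases hb : Nat.beq t 0
    · rw [hb] at h
      obtain ⟨r, h1, h2⟩ := sc_sound φ _ _ _ _ h
      obtain ⟨R, h3, h4⟩ := ih _ h2
      refine ⟨R, ?_, h4⟩
      rw [h3]; simp only [evs_cons, ev_cons, h1, ev_nil]; ring
    · rw [hb] at h
      obtain ⟨R, h3, h4⟩ := ih _ h
      have ht : t = 0 := Nat.eq_of_beq_eq_true hb
      subst ht
      exact ⟨R, by rw [h3]; simp, h4⟩

lemma get_sound (env : List (List ℕ)) (n : ℕ) (k : List ℕ → Bool) (h : get env n k = true) :
    ∃ g ∈ env, k g = true := by
  induction env generalizing n with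
  | nil => exact absurd h (by simp [get])
  | cons g env ih =>
    cases n with
    | zero => exact ⟨g, by simp, h⟩
    | succ n =>
      obtain ⟨g', h1, h2⟩ := ih n h
      exact ⟨g', by simp [h1], h2⟩

omit [CharP F 2] in
lemma lvs_sound (env : List (List ℕ)) (henv : ∀ g ∈ env, ev φ g = 0)
    (k : List (List ℕ) → Bool) (c : List (List ℕ × ℕ)) (L : List (List ℕ))
    (h : lvs env k c L = true) : ∃ R, evs φ R = evs φ L ∧ k R = true := by
  induction c generalizing L with
  | nil => exact ⟨L, rfl, h⟩
  | cons p c ih =>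
    have e : lvs env k (p :: c) L = get env p.2 (fun g => lv p.1 (lvs env k c) g L) := rfl
    rw [e] at h
    obtain ⟨g, hg, h1⟩ := get_sound _ _ _ h
    obtain ⟨R, h2, h3⟩ := lv_sound φ _ _ _ _ h1
    obtain ⟨R', h4, h5⟩ := ih _ h3
    exact ⟨R', by rw [h4, h2, henv g hg]; simp, h5⟩

lemma rnd_sound (up : Bool) (k : List (List ℕ) → Bool) (f : ℕ) (L acc : List (List ℕ))
    (h : rnd up k f L acc = true) : ∃ R, evs φ R = evs φ L + evs φ acc ∧ k R = true := by
  induction f generalizing L acc with
  | zero => exact absurd h (by simp [rnd])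
  | succ f ih =>
    rcases L with _ | ⟨a, _ | ⟨b, L⟩⟩
    · exact ⟨acc, by simp, h⟩
    · obtain ⟨r, h1, h2⟩ := mrg_sound φ up 100000000 a [] [] (fun r => k (r :: acc)) h
      exact ⟨r :: acc, by simp [h1], h2⟩
    · obtain ⟨r, h1, h2⟩ :=
        mrg_sound φ up 100000000 a b [] (fun r => rnd up k f L (r :: acc)) h
      obtain ⟨R, h3, h4⟩ := ih _ _ h2
      exact ⟨R, by rw [h3]; simp only [evs_cons, h1, ev_nil]; ring, h4⟩

lemma allz_sound (f : ℕ) (up : Bool) (L : List (List ℕ)) (h : allz f up L = true) :
    evs φ L = 0 := by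
  induction f generalizing up L with
  | zero => exact absurd h (by simp [allz])
  | succ f ih =>
    rcases L with _ | ⟨a, _ | ⟨b, L⟩⟩
    · rfl
    · rcases a with _ | ⟨x, a⟩
      · simp
      · exact absurd h (by simp [allz])
    · obtain ⟨R, h1, h2⟩ := rnd_sound φ up _ 100000000 (a :: b :: L) [] h
      have := ih _ _ h2
      rw [h1] at this
      simpa using this

lemma sqs_sound (k : List (List ℕ) → Bool) (r : List ℕ) (L : List (List ℕ))
    (h : sqs k r L = true) : ∃ R, evs φ R = ev φ r ^ 2 + evs φ L ∧ k R = true := by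
  induction r generalizing L with
  | nil => exact ⟨L, by simp, h⟩
  | cons x r ih =>
    have e : sqs k (x :: r) L = force (Nat.mul x x) (fun y => sqs k r ([y] :: L)) := rfl
    rw [e, force_eq] at h
    obtain ⟨R, h1, h2⟩ := ih _ h
    refine ⟨R, ?_, h2⟩
    rw [h1, ev_cons, CharTwo.add_sq]
    simp only [evs_cons, ev_cons, ev_nil, Nat.mul_eq, map_mul]; ring

lemma okStep_sound (pa pb : ℕ) (ha : φ pa ≠ 0) (hb : φ pb ≠ 0) (env : List (List ℕ))
    (henv : ∀ g ∈ env, ev φ g = 0) (s : Step) (h : okStep pa pb env s = true) :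
    ev φ s.2.2.2.2 = 0 := by
  obtain ⟨c, i, j, rt, r⟩ := s
  obtain ⟨R, h1, h2⟩ := lvs_sound φ env henv _ _ _ h
  cases rt
  · obtain ⟨r', h3, h4⟩ := sc_sound φ _ _ _ _ h2
    have := allz_sound φ _ _ _ h4
    rw [evs_cons, h1, h3] at this
    simpa [ha, hb] using this
  · obtain ⟨R', h3, h4⟩ := sqs_sound φ _ _ _ h2
    have := allz_sound φ _ _ _ h4
    rw [h3, h1] at this
    simpa using this

theorem okSteps_sound (pa pb : ℕ) (ha : φ pa ≠ 0) (hb : φ pb ≠ 0) (ss : List Step)
    (env : List (List ℕ)) (henv : ∀ g ∈ env, ev φ g = 0) (h : okSteps pa pb ss env = true) :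
    ∀ g ∈ outEnv ss env, ev φ g = 0 := by
  induction ss generalizing env with
  | nil => simpa [outEnv] using henv
  | cons s ss ih =>
    have e : okSteps pa pb (s :: ss) env =
      Bool.rec false (okSteps pa pb ss (s.2.2.2.2 :: env)) (okStep pa pb env s) := rfl
    rw [e] at h
    cases hs : okStep pa pb env s
    · rw [hs] at h; exact absurd h (by simp)
    · rw [hs] at h
      have h0 := okStep_sound φ pa pb ha hb env henv s hs
      have := ih (s.2.2.2.2 :: env) (by
        intro g hg
        rcases List.mem_cons.1 hg with rfl | hg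
        · exact h0
        · exact henv g hg) h
      intro g hg
      apply this
      simpa [outEnv] using hg

/-- The multiplicative map with prescribed values at the primes. -/
noncomputable def hom (x : ℕ → F) : ℕ →*₀ F where
  toFun n := if n = 0 then 0 else (n.primeFactorsList.map x).prod
  map_zero' := by simp
  map_one' := by simp
  map_mul' a b := by
    by_cases ha : a = 0
    · simp [ha]
    by_cases hb : b = 0
    · simp [hb]
    simp only [mul_eq_zero, ha, hb, or_self, if_false]
    rw [← List.prod_append, ← List.map_append]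
    exact ((Nat.perm_primeFactorsList_mul ha hb).map x).prod_eq

omit [CharP F 2] in
lemma hom_prime (x : ℕ → F) {p : ℕ} (hp : p.Prime) : hom x p = x p := by
  change (if p = 0 then 0 else (p.primeFactorsList.map x).prod) = x p
  simp [hp.ne_zero, Nat.primeFactorsList_prime hp]

end Pool.Agent.P.MP_5d9799_lc
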