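import Mathlib

namespace Pool.Agent.P.MP_5d9799_lc

open Polynomial

/-- The 2-cyclotomic coset `C_i` modulo `n = 2^m - 1`, as a set of residues in `0..n-1`
(`2^m = 1` modulo `n`, so the exponents `j < m` give the whole coset). -/
def coset (m i : ℕ) : Finset ℕ := (Finset.range m).image fun j => i * 2 ^ j % (2 ^ m - 1)

/-- The set `Γ` of coset leaders. -/
def leaders (m : ℕ) : Finset ℕ :=
  (Finset.range (2 ^ m - 1)).filter fun i => ∀ k ∈ coset m i, i ≤ k

/-- `v_i = m ρ_i / l_i mod 2`, `ρ_i` the number of even members of `C_i`, `l_i = |C_i|`. -/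
def v (m i : ℕ) : ℕ := m * ((coset m i).filter Even).card / (coset m i).card % 2

/-- `ε_a`. -/
noncomputable def eps (h a : ℕ) : ℕ :=
  if a = 2 ^ h - 1 then 1 else ⌈Real.logb 2 (((2 : ℝ) ^ h - 1) / a)⌉₊

/-- `u_j` for a coset leader `j`. -/
noncomputable def u (m h j : ℕ) : ℕ :=
  if j = 1 then (v m 1 + h + 1) % 2
  else if Odd j ∧ j ≤ 2 ^ h - 1 then (eps h j + v m j) % 2 else v m j

/-- `D_i`: the union of the cosets `C_j`, `j ∈ Γ`, with `u_j = i`. -/
noncomputable def D (m h i : ℕ) : Finset ℕ :=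
  ((leaders m).filter fun j => u m h j = i).biUnion (coset m)

/-- Generator polynomial of `C_{D,0}`. -/
noncomputable def gen0 (m h : ℕ) (α : GaloisField 2 m) : (GaloisField 2 m)[X] :=
  ∏ j ∈ D m h 0, (X - C (α ^ j))

/-- Minimum Hamming distance of the binary cyclic code of length `2^m - 1` generated by `g`:
the least number of nonzero coefficients of a nonzero binary polynomial of degree
`< 2^m - 1` divisible by `g` (it would be `0` for the zero code). -/
noncomputable def minDist (m : ℕ) (g : (GaloisField 2 m)[X]) : ℕ :=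
  sInf {w | ∃ c : (ZMod 2)[X], c ≠ 0 ∧ c.natDegree < 2 ^ m - 1 ∧
    g ∣ c.map (algebraMap (ZMod 2) (GaloisField 2 m)) ∧ c.support.card = w}

end Pool.Agent.P.MP_5d9799_lc
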