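import Pool.Agent.P.MP_5d9799_lc.Bound

namespace Pool.Agent.P.MP_5d9799_lc

open Polynomial Finset

/-- case-split certificates for a lower bound on the weight -/
inductive Cert where
  | bch (s t0 : ℕ) : Cert
  | lad (l : List (ℕ × ℕ)) : Cert
  | split (c : ℕ) (a b : Cert) : Cert

def check (m L : ℕ) (z : ℕ → Bool) : Cert → List ℕ → List ℕ → Bool
  | .bch s t0, zs, _ => decide (Nat.Coprime s (2 ^ m - 1)) &&
      decide (∀ t < L, (z (t0 + s * t) || inCos m zs (t0 + s * t)) = true)
  | .lad l, zs, ns => decide (L < l.length) && ok (fun t => z t || inCos m zs t) (inCos m ns) [] l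
  | .split c a b, zs, ns => check m L z a (c :: zs) ns && check m L z b zs (c :: ns)

lemma check_sound {F : Type} [Field F] [CharP F 2] (A : Finset ℕ) (α : F) (m L : ℕ)
    (hα : IsPrimitiveRoot α (2 ^ m - 1)) (hm : 0 < 2 ^ m - 1) (hA : ∀ a ∈ A, a < 2 ^ m - 1)
    (hne : A.Nonempty) (z : ℕ → Bool) (hz : ∀ t, z t = true → PS A α t = 0) :
    ∀ (ct : Cert) (zs ns : List ℕ), check m L z ct zs ns = true → (∀ a ∈ zs, PS A α a = 0) →
      (∀ a ∈ ns, PS A α a ≠ 0) → L < A.card := by
  have h1 : α ^ (2 ^ m - 1) = 1 := hα.pow_eq_one
  have hz' : ∀ zs : List ℕ, (∀ a ∈ zs, PS A α a = 0) →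
      ∀ t, (z t || inCos m zs t) = true → PS A α t = 0 := by
    intro zs hzs t ht
    rcases Bool.or_eq_true _ _ |>.mp ht with h | h
    · exact hz _ h
    · exact inCos_zero A α m h1 zs hzs _ h
  intro ct
  induction ct with
  | bch s t0 =>
    intro zs ns h hzs _
    simp only [check, Bool.and_eq_true, decide_eq_true_eq] at h
    exact bch A α _ s t0 L hα hm h.1 hA hne fun t ht => hz' zs hzs _ (h.2 t ht)
  | lad l =>
    intro zs ns h hzs hns
    simp only [check, Bool.and_eq_true, decide_eq_true_eq] at h
    exact lt_of_lt_of_le h.1 (ladder A α _ _ (hz' zs hzs) (inCos_ne A α m h1 ns hns) l h.2)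
  | split c a b iha ihb =>
    intro zs ns h hzs hns
    simp only [check, Bool.and_eq_true] at h
    by_cases hc : PS A α c = 0
    · exact iha _ _ h.1 (by simpa using ⟨hc, hzs⟩) hns
    · exact ihb _ _ h.2 hzs (by simpa using ⟨hc, hns⟩)

def mask1 : ℕ :=
  0x1669699669969669699696699669699669969669966969969669699669969669699696699669699696696996699696699669699669969669699696699669699669969669966969969669699669969669966969966996966969969669966969969669699669969669699696699669699669969669966969969669699669969669

def cert1 : Cert :=
  (.split 357
   (.split 666
    (.split 558
     (.split 762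
      (.split 261
       (.split 453
        (.split 570
         (.split 861
          (.split 162
           (.split 289
            (.bch 17 751)
            (.split 734
             (.bch 17 649)
             (.lad [(0, 41), (639, 17), (765, 547), (255, 479), (735, 983), (831, 887),
               (762, 394), (774, 1006), (834, 946), (786, 278), (252, 904), (732, 424),
               (222, 934), (414, 937), (540, 811), (348, 1003), (444, 907), (117, 172),
               (175, 114), (178, 150), (172, 585), (685, 471), (142, 1014), (382, 477),
               (334, 525), (367, 492), (1006, 384), (115, 252), (788, 891), (290, 444),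
               (929, 828), (317, 573), (289, 570), (22, 60), (14, 564)])))
           (.lad [(0, 69), (543, 3), (927, 165), (288, 36), (33, 48), (96, 42), (30, 39),
             (36, 33), (48, 21), (24, 57), (291, 255), (99, 63), (546, 0), (930, 231),
             (303, 345), (279, 267), (558, 534), (93, 183), (87, 75), (12, 150), (6, 156),
             (276, 828), (186, 87), (843, 342), (210, 336), (234, 414), (744, 348), (372, 720),
             (837, 834), (657, 435), (465, 696), (90, 72), (747, 822), (939, 153), (951, 141)]))
          (.lad [(0, 375), (768, 93), (792, 150), (24, 351), (537, 210), (513, 234), (744, 3),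
            (999, 399), (756, 129), (951, 549), (948, 450), (129, 246), (123, 354), (27, 444),
            (489, 258), (954, 0), (117, 582), (75, 402), (270, 480), (438, 309), (219, 735),
            (168, 303), (366, 381), (780, 714), (372, 99), (987, 411), (195, 690), (807, 687),
            (609, 90), (462, 288), (804, 594), (561, 189), (390, 564), (975, 798), (171, 204)]))
         (.lad [(0, 117), (6, 111), (192, 42), (198, 36), (96, 21), (99, 18), (3, 114),
           (147, 423), (390, 264), (633, 216), (195, 90), (402, 168), (378, 192), (657, 834),
           (1017, 123), (609, 45), (561, 9), (171, 678), (999, 492), (804, 336), (591, 1002),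
           (183, 51), (396, 72), (597, 339), (1011, 582), (603, 537), (1005, 486), (810, 498),
           (201, 33), (816, 120), (408, 60), (615, 525), (822, 27), (834, 864), (174, 396)]))
        (.lad [(0, 87), (24, 63), (792, 318), (768, 21), (489, 66), (396, 510), (210, 243),
          (303, 435), (117, 231), (675, 717), (513, 42), (48, 126), (141, 414), (978, 219),
          (606, 870), (327, 462), (438, 15), (234, 876), (531, 840), (345, 3), (624, 282),
          (903, 294), (252, 96), (819, 291), (66, 387), (540, 198), (744, 1017), (279, 459),
          (633, 843), (930, 180), (726, 384), (75, 99), (186, 924), (111, 585), (762, 957)]))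
       (.lad [(0, 21), (24, 18), (792, 315), (768, 339), (537, 105), (999, 66), (489, 153),
         (513, 129), (123, 519), (744, 363), (951, 156), (129, 132), (27, 294), (1002, 282),
         (3, 639), (954, 741), (117, 948), (441, 843), (756, 288), (105, 216), (633, 411),
         (948, 96), (120, 48), (153, 891), (501, 690), (900, 291), (207, 900), (384, 681),
         (390, 894), (720, 387), (225, 840), (753, 792), (348, 996), (246, 75), (111, 561)]))
      (.lad [(0, 351), (255, 96), (279, 102), (24, 357), (231, 270), (486, 15), (510, 177),
        (999, 405), (639, 123), (534, 153), (663, 24), (537, 225), (438, 543), (633, 129),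
        (513, 489), (489, 366), (951, 51), (120, 231), (183, 756), (441, 414), (615, 147),
        (243, 612), (249, 438), (627, 354), (246, 609), (435, 969), (657, 282), (429, 975),
        (432, 330), (561, 378), (222, 780), (411, 993), (267, 588), (330, 171), (3, 999)]))
     (.lad [(0, 93), (513, 45), (561, 90), (48, 510), (51, 414), (3, 462), (465, 0), (975, 513),
       (537, 765), (27, 438), (780, 708), (147, 969), (768, 534), (153, 219), (816, 486),
       (177, 102), (783, 705), (786, 51), (24, 255), (657, 459), (960, 900), (984, 876),
       (12, 267), (57, 780), (144, 972), (273, 657), (129, 243), (385, 452), (793, 323),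
       (525, 870), (720, 768), (94, 836), (856, 260), (1020, 840), (883, 326)]))
    (.lad [(0, 213), (12, 201), (651, 15), (639, 39), (24, 189), (663, 573), (279, 54),
      (255, 78), (267, 159), (18, 195), (657, 579), (273, 153), (855, 846), (849, 513),
      (438, 240), (486, 366), (996, 879), (390, 462), (900, 804), (432, 900), (384, 294),
      (645, 996), (870, 486), (858, 783), (15, 603), (249, 177), (888, 561), (201, 225),
      (126, 183), (102, 231), (504, 945), (468, 768), (69, 609), (456, 993), (705, 999)]))
   (.split 666
    (.lad [(0, 171), (627, 57), (639, 51), (1011, 609), (243, 102), (255, 90), (651, 39),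
      (12, 585), (267, 423), (435, 933), (447, 243), (459, 231), (249, 561), (441, 987),
      (294, 516), (804, 576), (852, 528), (807, 573), (855, 525), (486, 879), (999, 366),
      (831, 876), (792, 828), (153, 531), (531, 153), (204, 486), (216, 474), (717, 996),
      (48, 294), (537, 831), (228, 462), (354, 1011), (849, 984), (18, 792), (63, 282)])
    (.split 558
     (.lad [(0, 171), (3, 210), (24, 147), (27, 186), (30, 183), (51, 120), (54, 564),
       (975, 387), (981, 894), (150, 192), (132, 486), (156, 462), (540, 816), (660, 576),
       (771, 561), (174, 507), (357, 48), (552, 813), (669, 9), (639, 75), (462, 228), (285, 72),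
       (711, 483), (255, 459), (873, 489), (858, 843), (249, 945), (726, 963), (39, 771),
       (222, 456), (651, 777), (75, 264), (66, 360), (210, 408), (273, 921)])
     (.lad [(0, 93), (12, 159), (204, 129), (192, 180), (384, 282), (396, 255), (198, 15),
       (390, 819), (6, 831), (858, 537), (300, 33), (294, 822), (288, 828), (882, 759),
       (1011, 198), (372, 0), (345, 12), (393, 204), (342, 216), (894, 780), (180, 192),
       (201, 729), (177, 102), (597, 240), (189, 237), (702, 786), (543, 945), (129, 243),
       (432, 870), (495, 435), (33, 432), (933, 834), (444, 858), (498, 882), (81, 603)]))))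

def mask2 : ℕ :=
  0x1669699669969669699696699669699669969669966969969669699669969668699696699669699696696996699696699669699669969669699696699669699569969669966969969669699669969668966969966996966969969669966969979669699669969668699696699669699769969668966969979668699768978737

def cert2 : Cert :=
  (.split 768
   (.bch 17 751)
   (.lad [(0, 3), (24, 0), (768, 258), (792, 243), (48, 987), (816, 219), (303, 816), (279, 105),
     (813, 216), (255, 771), (765, 264), (789, 240), (408, 621), (384, 645), (381, 132),
     (405, 108), (999, 27), (231, 795), (975, 51), (717, 819), (36, 156), (207, 822), (612, 414),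
     (597, 438), (573, 462), (228, 843), (918, 201), (87, 9), (204, 180), (99, 669), (402, 717),
     (378, 693), (1020, 15)]))

lemma mask1_crit : ∀ t < 1023, mask1.testBit t = true → crit 10 1 0 t = true := by
  decide +kernel

lemma mask2_crit : ∀ t < 1023, mask2.testBit t = true → crit 10 2 0 t = true := by
  decide +kernel

lemma cert1_ok : check 10 34 (fun t => mask1.testBit (t % 1023)) cert1 [] [] = true := by
  decide +kernel

lemma cert2_ok : check 10 32 (fun t => mask2.testBit (t % 1023)) cert2 [] [] = true := by
  decide +kernel

end Pool.Agent.P.MP_5d9799_lc
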